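import Pool.Agent.helper36.MP.SpecP

/-!
# Project mp (MP_af9036_an), module HCH (helper78)
-/

set_option autoImplicit false

open Complex Metric Set Filter Topology MeasureTheory

noncomputable section

namespace MPS

theorem HCH_aux (hHAR : HAR_stmt) (ι : Type) (s : Finset ι) (h : ι → ℂ → ℂ) (Ω : Set ℂ) (a : ℂ)
    (r ν : ℝ) (hr : 0 < r) (hν : 0 ≤ ν) (hd : ∀ i ∈ s, DifferentiableOn ℂ (h i) Ω) (m : ℕ) :
    ∀ z : ℂ, (∀ p ∈ segment ℝ a z, ball p r ⊆ Ω) →
    (∀ p ∈ segment ℝ a z, ∫⁻ w in ball p r,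
      ENNReal.ofReal (∑ i ∈ s, (‖h i w‖ - (h i w).re)) ≤ ENNReal.ofReal ν) →
    ‖z - a‖ ≤ m * (r / 2) →
    ∑ i ∈ s, ‖h i z‖ + 4 / 3 * (ν / (Real.pi * r ^ 2)) ≤
      4 ^ m * (∑ i ∈ s, ‖h i a‖ + 4 / 3 * (ν / (Real.pi * r ^ 2))) := by
  induction m with
  | zero =>
    intro z _ _ hz
    have h0 : z = a := by
      have : ‖z - a‖ ≤ 0 := by simpa using hz
      exact sub_eq_zero.mp (norm_le_zero_iff.mp this)
    rw [h0, pow_zero, one_mul]
  | succ m ih =>
    intro z hz1 hz2 hz3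
    have hm : (0 : ℝ) < (m : ℝ) + 1 := by positivity
    set t : ℝ := (m : ℝ) / (m + 1) with ht
    have ht0 : 0 ≤ t := by positivity
    have ht1 : t ≤ 1 := by
      rw [ht, div_le_one hm]
      linarith
    set z' : ℂ := a + t • (z - a) with hz'
    have hz'm : z' ∈ segment ℝ a z := by
      rw [segment_eq_image']
      exact ⟨t, ⟨ht0, ht1⟩, rfl⟩
    have hsub : segment ℝ a z' ⊆ segment ℝ a z :=
      (convex_segment a z).segment_subset (left_mem_segment ℝ a z) hz'm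
    have e1 : z' - a = t • (z - a) := by rw [hz']; ring
    have n1 : ‖z' - a‖ = t * ‖z - a‖ := by
      rw [e1, norm_smul, Real.norm_of_nonneg ht0]
    have hz3' : ‖z - a‖ ≤ ((m : ℝ) + 1) * (r / 2) := by
      have := hz3
      push_cast at this
      exact this
    have n2 : ‖z' - a‖ ≤ m * (r / 2) := by
      rw [n1]
      calc t * ‖z - a‖ ≤ t * (((m : ℝ) + 1) * (r / 2)) := mul_le_mul_of_nonneg_left hz3' ht0
        _ = m * (r / 2) := by rw [ht]; field_simp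
    have e2 : z - z' = (1 - t) • (z - a) := by
      rw [hz', sub_smul, one_smul]; ring
    have n3 : ‖z - z'‖ ≤ r / 2 := by
      rw [e2, norm_smul, Real.norm_of_nonneg (by linarith)]
      calc (1 - t) * ‖z - a‖ ≤ (1 - t) * (((m : ℝ) + 1) * (r / 2)) :=
            mul_le_mul_of_nonneg_left hz3' (by linarith)
        _ = r / 2 := by rw [ht]; field_simp; ring
    have i1 := ih z' (fun p hp => hz1 p (hsub hp)) (fun p hp => hz2 p (hsub hp)) n2
    have i2 := (hHAR ι s h z' r ν hr hν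
      (fun i hi => (hd i hi).mono (hz1 z' hz'm)) (hz2 z' hz'm)).2 z (by
        rw [mem_closedBall, dist_eq_norm]; exact n3)
    have e3 : (4 : ℝ) ^ (m + 1) * (∑ i ∈ s, ‖h i a‖ + 4 / 3 * (ν / (Real.pi * r ^ 2))) =
        4 * (4 ^ m * (∑ i ∈ s, ‖h i a‖ + 4 / 3 * (ν / (Real.pi * r ^ 2)))) := by
      rw [pow_succ]; ring
    rw [e3]
    linarith

theorem HCH (hHAR : HAR_stmt) : HCH_stmt := by
  intro ι s h Ω a z r ν m hr hν _ hd hz1 hz2 hz3
  have h1 := HCH_aux hHAR ι s h Ω a r ν hr hν hd m z hz1 hz2 hz3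
  have hx : 0 ≤ ν / (Real.pi * r ^ 2) := by positivity
  have h4 : (0 : ℝ) < 4 ^ m := by positivity
  have h2 : ∑ i ∈ s, ‖h i a‖ + 4 / 3 * (ν / (Real.pi * r ^ 2)) ≤
      ∑ i ∈ s, ‖h i a‖ + 2 * ν / (Real.pi * r ^ 2) := by
    rw [mul_div_assoc]
    linarith
  have h3 := mul_le_mul_of_nonneg_left h2 h4.le
  linarith

end MPS
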