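import Pool.Agent.helper36.MP.SpecZ

/-!
# Project mp (MP_af9036_an), module FC (helper78)
-/

set_option autoImplicit false

open Complex Metric Set Filter Topology MeasureTheory

noncomputable section

namespace MPS

open Pool.Agent.helper16.Multibrot

theorem FC (hFB : FB_stmt) : FC_stmt := by
  intro n hn c ζ hζ hj hlim
  by_contra hc
  obtain ⟨r0, hr0, hball⟩ : ∃ r0 > (0 : ℝ), ball c r0 ⊆ (closure (hyperbolic n))ᶜ :=
    Metric.isOpen_iff.mp isClosed_closure.isOpen_compl c hc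
  set r : ℝ := min r0 1 with hr
  have hrpos : 0 < r := lt_min hr0 one_pos
  have hdis : Disjoint (ball c r) (hyperbolic n) := by
    rw [Set.disjoint_left]
    intro x hx hx2
    exact hball (ball_subset_ball (min_le_left _ _) hx) (subset_closure hx2)
  obtain ⟨j0, hj0, hmin⟩ := Finset.exists_min_image (Finset.Icc (1 : ℕ) 5)
    (fun j => ‖ζ ^ j - 1‖) ⟨1, by simp⟩
  have hd0 : 0 < ‖ζ ^ j0 - 1‖ := norm_pos_iff.mpr (sub_ne_zero.mpr (hj j0 hj0))
  set d : ℝ := ‖ζ ^ j0 - 1‖ / 2 with hd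
  have hdpos : 0 < d := by positivity
  obtain ⟨ε, hε, hF⟩ := hFB n hn d hdpos
  have hζ0 : ζ ≠ 0 := by
    intro h0
    rw [h0, norm_zero] at hζ
    exact zero_ne_one hζ
  have h1 : ∀ᶠ ρ in 𝓝 ζ, ∀ j ∈ Finset.Icc (1 : ℕ) 5, d ≤ ‖(ρ / (‖ρ‖ : ℂ)) ^ j - 1‖ := by
    rw [Filter.eventually_all_finset]
    intro j hj1
    have hcont : ContinuousAt (fun ρ : ℂ => ‖(ρ / (‖ρ‖ : ℂ)) ^ j - 1‖) ζ := by
      have : ContinuousAt (fun ρ : ℂ => ρ / (‖ρ‖ : ℂ)) ζ := by
        refine continuousAt_id.div (Complex.continuous_ofReal.comp continuous_norm).continuousAt ?_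
        exact Complex.ofReal_ne_zero.mpr (norm_ne_zero_iff.mpr hζ0)
      exact ((this.pow j).sub continuousAt_const).norm
    have hval : d < ‖(ζ / (‖ζ‖ : ℂ)) ^ j - 1‖ := by
      rw [hζ, Complex.ofReal_one, div_one]
      have := hmin j hj1
      linarith
    exact (hcont.eventually (lt_mem_nhds hval)).mono fun _ h => h.le
  have h2 : ∀ᶠ ρ in 𝓝 ζ, Real.log ‖ρ‖ < ε * r := by
    have hcont : ContinuousAt (fun ρ : ℂ => Real.log ‖ρ‖) ζ :=
      (Real.continuousAt_log (norm_ne_zero_iff.mpr hζ0)).comp continuous_norm.continuousAt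
    have hval : Real.log ‖ζ‖ < ε * r := by
      rw [hζ, Real.log_one]
      positivity
    exact hcont.eventually (gt_mem_nhds hval)
  obtain ⟨η, hη, hη2⟩ := Metric.eventually_nhds_iff.mp (h1.and h2)
  obtain ⟨k, z, hk, hz, hm⟩ := hlim η hη
  have h3 := hη2 (y := mlt n k c z) (by rw [dist_eq_norm]; exact hm)
  have h4 := hF c r hrpos (min_le_right _ _) hdis k z hk hz h3.1
  exact absurd h3.2 (not_lt.mpr h4)

end MPS
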