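import Pool.Agent.helper36.MP.SpecN

/-!
# Project mp (MP_af9036_an), module ND (helper78)
-/

set_option autoImplicit false

open Complex Metric Set Filter Topology MeasureTheory

noncomputable section

namespace MPS

/-- gluing of two pole maps along an annulus. -/
theorem ND_glue {k : ℕ} [NeZero k] (b g : ZMod k → ℂ) (i l : ZMod k) (ψ ψ' : ℂ → ℂ) (c : ℂ)
    (h1 : PN b g i ψ 1) (h2 : PN b g l ψ' 1) (hc0 : c ≠ 0) (hc1 : ‖c‖ < 1)
    (heq : ∀ z : ℂ, ‖c‖ < ‖z‖ → ‖z‖ < 1 → ψ z = ψ' (c / z)) :
    ∃ Ψ : ℂ → ℂ, PN b g i Ψ 2 ∧ deriv Ψ 0 = deriv ψ 0 := by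
  classical
  set Ψ : ℂ → ℂ := fun z => if ‖z‖ < 1 then ψ z else ψ' (c / z) with hΨ
  have hin : ∀ z : ℂ, ‖z‖ < 1 → Ψ =ᶠ[𝓝 z] ψ := by
    intro z hz
    have : {x : ℂ | ‖x‖ < 1} ∈ 𝓝 z := (isOpen_lt continuous_norm continuous_const).mem_nhds hz
    filter_upwards [this] with x hx
    have hx' : ‖x‖ < 1 := hx
    rw [hΨ]
    simp only [hx', if_true]
  have hout : ∀ z : ℂ, ‖c‖ < ‖z‖ → Ψ =ᶠ[𝓝 z] fun x => ψ' (c / x) := by
    intro z hz
    have : {x : ℂ | ‖c‖ < ‖x‖} ∈ 𝓝 z := (isOpen_lt continuous_const continuous_norm).mem_nhds hz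
    filter_upwards [this] with x hx
    have hx' : ‖c‖ < ‖x‖ := hx
    rw [hΨ]
    by_cases h : ‖x‖ < 1
    · simp only [h, if_true]
      exact heq x hx' h
    · simp only [h, if_false]
  have hball : ∀ z : ℂ, ‖c‖ < ‖z‖ → c / z ∈ ball (0 : ℂ) 1 := by
    intro z hz
    rw [mem_ball_zero_iff, norm_div, div_lt_one (lt_of_le_of_lt (norm_nonneg c) hz)]
    exact hz
  have hne : ∀ z : ℂ, ‖c‖ < ‖z‖ → z ≠ 0 := by
    intro z hz h0
    rw [h0, norm_zero] at hz
    exact absurd hz (not_lt.mpr (norm_nonneg c))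
  have hdd : ∀ z : ℂ, ‖c‖ < ‖z‖ → HasDerivAt (fun x => ψ' (c / x))
      (deriv ψ' (c / z) * (-c / z ^ 2)) z := by
    intro z hz
    have hz0 := hne z hz
    have e1 : HasDerivAt ψ' (deriv ψ' (c / z)) (c / z) :=
      ((h2.diff).differentiableAt (isOpen_ball.mem_nhds (hball z hz))).hasDerivAt
    have e2 : HasDerivAt (fun x : ℂ => c / x) (-c / z ^ 2) z := by
      have := (hasDerivAt_inv hz0).const_mul c
      refine this.congr_deriv ?_ |>.congr_of_eventuallyEq ?_
      · field_simp
      · filter_upwards with x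
        rw [div_eq_mul_inv]
    exact e1.comp z e2
  refine ⟨Ψ, ⟨by norm_num, ?_, ?_, ?_, ?_, ?_⟩, ?_⟩
  · intro z _
    refine DifferentiableAt.differentiableWithinAt ?_
    rcases lt_or_ge ‖z‖ 1 with h | h
    · refine DifferentiableAt.congr_of_eventuallyEq ?_ (hin z h)
      exact (h1.diff).differentiableAt (isOpen_ball.mem_nhds (by simpa using h))
    · have hz : ‖c‖ < ‖z‖ := lt_of_lt_of_le hc1 h
      exact (hdd z hz).differentiableAt.congr_of_eventuallyEq (hout z hz)
  · rw [(hin 0 (by simp)).eq_of_nhds]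
    exact h1.val
  · rw [(hin 0 (by simp)).deriv_eq]
    exact h1.der
  · intro u _ hu0 j
    rcases lt_or_ge ‖u‖ 1 with h | h
    · rw [(hin u h).eq_of_nhds]
      exact h1.av u (by simpa using h) hu0 j
    · have hz : ‖c‖ < ‖u‖ := lt_of_lt_of_le hc1 h
      rw [(hout u hz).eq_of_nhds]
      exact h2.av (c / u) (hball u hz) (div_ne_zero hc0 hu0) j
  · intro u _ hu0
    rcases lt_or_ge ‖u‖ 1 with h | h
    · rw [(hin u h).eq_of_nhds, (hin u h).deriv_eq]
      exact h1.eq u (by simpa using h) hu0
    · have hz : ‖c‖ < ‖u‖ := lt_of_lt_of_le hc1 h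
      rw [(hout u hz).eq_of_nhds, (hout u hz).deriv_eq, (hdd u hz).deriv]
      have := h2.eq (c / u) (hball u hz) (div_ne_zero hc0 hu0)
      have e : u ^ 2 * (deriv ψ' (c / u) * (-c / u ^ 2)) ^ 2 =
          (c / u) ^ 2 * deriv ψ' (c / u) ^ 2 := by
        field_simp
      rw [e]
      exact this
  · rw [(hin 0 (by simp)).deriv_eq]

theorem ND (hNU : NU_stmt) (hNH : NH_stmt) : ND_stmt := by
  intro k _ b g i l ψ ψ' hb hil hψ hψ'
  rw [Set.disjoint_left]
  rintro x ⟨u, hu, rfl⟩ ⟨v, hv, huv⟩
  have h1 := hψ.pn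
  have h2 := hψ'.pn
  have hbil : b i ≠ b l := fun h => hil (hb h)
  have hu0 : u ≠ 0 := by
    intro h0
    rw [h0, h1.val] at huv
    by_cases hv0 : v = 0
    · rw [hv0, h2.val] at huv
      exact hbil huv.symm
    · exact h2.av v hv hv0 i huv
  have hv0 : v ≠ 0 := by
    intro h0
    rw [h0, h2.val] at huv
    exact h1.av u hu hu0 l huv.symm
  have hu1 : ‖u‖ < 1 := by simpa using hu
  have hv1 : ‖v‖ < 1 := by simpa using hv
  have hlu : Real.log ‖u‖ < 0 := Real.log_neg (norm_pos_iff.mpr hu0) hu1
  have hlv : Real.log ‖v‖ < 0 := Real.log_neg (norm_pos_iff.mpr hv0) hv1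
  have hnat1 := (hNH k b g i ψ 1 h1).1
  have hnat2 := (hNH k b g l ψ' 1 h2).1
  rw [Real.log_one] at hnat1 hnat2
  have hopen : IsOpen {w : ℂ | w.re < 0} := isOpen_lt Complex.continuous_re continuous_const
  have hw1 : (Complex.log u).re < 0 := by rw [Complex.log_re]; exact hlu
  have hw2 : (Complex.log v).re < 0 := by rw [Complex.log_re]; exact hlv
  have he : hat ψ (Complex.log u) = hat ψ' (Complex.log v) := by
    show ψ (Complex.exp (Complex.log u)) = ψ' (Complex.exp (Complex.log v))
    rw [Complex.exp_log hu0, Complex.exp_log hv0, huv]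
  obtain ⟨s, hs, -, hK, hseg⟩ := hNU k b g (hat ψ) (hat ψ') {w : ℂ | w.re < 0} {w : ℂ | w.re < 0}
    (Complex.log u) (Complex.log v) hopen hopen hnat1 hnat2 hw1 hw2 he
  rcases hs with rfl | rfl
  · -- `s = 1`
    have hT : ∀ T : ℝ, 0 ≤ T → hat ψ (Complex.log u + (-(T : ℂ))) =
        hat ψ' (Complex.log v + (-(T : ℂ))) := by
      intro T hT
      have := (hseg (-(T : ℂ)) ?_).1
      · rw [one_mul] at this
        exact this
      · intro t ht
        have e : ((t : ℂ) * (-(T : ℂ))).re = -(t * T) := by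
          simp
        constructor
        · show (Complex.log u + (t : ℂ) * (-(T : ℂ))).re < 0
          rw [Complex.add_re, e]
          have := mul_nonneg ht.1 hT
          linarith
        · show (Complex.log v + 1 * ((t : ℂ) * (-(T : ℂ)))).re < 0
          rw [Complex.add_re, one_mul, e]
          have := mul_nonneg ht.1 hT
          linarith
    have hlim : ∀ (φ : ℂ → ℂ) (a w : ℂ), DifferentiableOn ℂ φ (ball 0 1) → φ 0 = a →
        Tendsto (fun T : ℝ => hat φ (w + (-(T : ℂ)))) atTop (𝓝 a) := by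
      intro φ a w hφ ha
      have hc : ContinuousAt φ 0 :=
        ((hφ).differentiableAt (isOpen_ball.mem_nhds (by simp))).continuousAt
      rw [← ha]
      have ht : Tendsto (fun T : ℝ => Complex.exp (w + (-(T : ℂ)))) atTop (𝓝 0) := by
        rw [tendsto_zero_iff_norm_tendsto_zero]
        have : (fun T : ℝ => ‖Complex.exp (w + (-(T : ℂ)))‖) = fun T : ℝ =>
            Real.exp w.re * Real.exp (-T) := by
          funext T
          rw [Complex.norm_exp, Complex.add_re, Real.exp_add]
          simp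
        rw [this]
        have := (Real.tendsto_exp_neg_atTop_nhds_zero).const_mul (Real.exp w.re)
        rw [mul_zero] at this
        exact this
      exact hc.tendsto.comp ht
    have l1 := hlim ψ (b i) (Complex.log u) h1.diff h1.val
    have l2 := hlim ψ' (b l) (Complex.log v) h2.diff h2.val
    have l3 : Tendsto (fun T : ℝ => hat ψ (Complex.log u + (-(T : ℂ)))) atTop (𝓝 (b l)) := by
      refine l2.congr' ?_
      filter_upwards [eventually_ge_atTop (0 : ℝ)] with T hT0
      exact (hT T hT0).symm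
    exact hbil (tendsto_nhds_unique l1 l3)
  · -- `s = -1`
    set K : Set ℂ := {h : ℂ | (Complex.log v).re < h.re ∧ h.re < -(Complex.log u).re} with hKd
    have hKo : IsOpen K :=
      (isOpen_lt continuous_const Complex.continuous_re).inter
        (isOpen_lt Complex.continuous_re continuous_const)
    have hKc : Convex ℝ K := by
      have e1 : Convex ℝ {h : ℂ | (Complex.log v).re < h.re} := convex_halfSpace_re_gt _
      have e2 : Convex ℝ {h : ℂ | h.re < -(Complex.log u).re} := convex_halfSpace_re_lt _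
      exact e1.inter e2
    have hK0 : (0 : ℂ) ∈ K := by
      constructor
      · rw [Complex.zero_re]; exact hw2
      · rw [Complex.zero_re]; linarith
    have hKeq := hK K hKo hKc.isPreconnected hK0 (by
      intro h hh
      constructor
      · show (Complex.log u + h).re < 0
        rw [Complex.add_re]
        linarith [hh.2]
      · show (Complex.log v + -1 * h).re < 0
        rw [Complex.add_re, neg_one_mul, Complex.neg_re]
        linarith [hh.1])
    have huv0 : u * v ≠ 0 := mul_ne_zero hu0 hv0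
    have huv1 : ‖u * v‖ < 1 := by
      rw [norm_mul]
      calc ‖u‖ * ‖v‖ ≤ ‖u‖ * 1 := mul_le_mul_of_nonneg_left hv1.le (norm_nonneg u)
        _ < 1 := by rw [mul_one]; exact hu1
    obtain ⟨Ψ, hΨ, hΨd⟩ := ND_glue b g i l ψ ψ' (u * v) h1 h2 huv0 huv1 (by
      intro z hz1 hz2
      have hz0 : z ≠ 0 := by
        intro h0
        rw [h0, norm_zero] at hz1
        exact absurd hz1 (not_lt.mpr (norm_nonneg _))
      have hlz : (Complex.log z).re < 0 := by
        rw [Complex.log_re]
        exact Real.log_neg (norm_pos_iff.mpr hz0) hz2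
      have hlz2 : (Complex.log u).re + (Complex.log v).re < (Complex.log z).re := by
        rw [Complex.log_re, Complex.log_re, Complex.log_re, ← Real.log_mul
          (norm_ne_zero_iff.mpr hu0) (norm_ne_zero_iff.mpr hv0), ← norm_mul]
        exact Real.log_lt_log (norm_pos_iff.mpr huv0) hz1
      have := hKeq (Complex.log z - Complex.log u) (by
        constructor
        · rw [Complex.sub_re]; linarith
        · rw [Complex.sub_re]; linarith)
      have e1 : Complex.log u + (Complex.log z - Complex.log u) = Complex.log z := by ring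
      have e2 : Complex.log v + -1 * (Complex.log z - Complex.log u) =
          Complex.log u + Complex.log v - Complex.log z := by ring
      rw [e1, e2] at this
      have e3 : hat ψ (Complex.log z) = ψ z := by
        show ψ (Complex.exp (Complex.log z)) = ψ z
        rw [Complex.exp_log hz0]
      have e4 : hat ψ' (Complex.log u + Complex.log v - Complex.log z) = ψ' (u * v / z) := by
        show ψ' (Complex.exp (Complex.log u + Complex.log v - Complex.log z)) = ψ' (u * v / z)
        rw [Complex.exp_sub, Complex.exp_add, Complex.exp_log hu0, Complex.exp_log hv0,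
          Complex.exp_log hz0]
      rw [e3, e4] at this
      exact this)
    exact hψ.mx 2 (by norm_num) Ψ hΨ hΨd

end MPS
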