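import Pool.Agent.helper36.MP.SpecQ

/-!
# Project mp (MP_af9036_an), module PT2 (helper78)
-/

set_option autoImplicit false

open Complex Metric Set Filter Topology MeasureTheory

noncomputable section

namespace MPS

/-- the family of level functions indexed by pairs. -/
def PT2_fam {k : ℕ} [NeZero k] (n : ℕ) (c : ℂ) (b g : ZMod k → ℂ) (G : ℕ → ℂ → ℂ) (i : ℕ × ℕ) :
    ℂ → ℂ :=
  if i.2 = 0 then eef n c b g G (i.1 - 1) else bet n b g G i.1 i.2

theorem PT2_sum {k : ℕ} [NeZero k] (n : ℕ) (c : ℂ) (b g : ZMod k → ℂ) (G : ℕ → ℂ → ℂ)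
    (hn : 2 ≤ n) (p : ℕ) (w : ℂ) :
    ∑ i ∈ Finset.Icc 1 p ×ˢ Finset.range n, ‖PT2_fam n c b g G i w‖ =
      ∑ q ∈ Finset.Icc 1 p, lev n c b g G q w := by
  rw [Finset.sum_product]
  refine Finset.sum_congr rfl fun q _ => ?_
  have h1 : Finset.range n = insert 0 (Finset.Ico 1 n) := by
    ext j
    simp only [Finset.mem_range, Finset.mem_insert, Finset.mem_Ico]
    omega
  rw [h1, Finset.sum_insert (by simp)]
  unfold lev
  rw [add_comm]
  congr 1
  · refine Finset.sum_congr rfl fun j hj => ?_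
    have hj0 : j ≠ 0 := by
      have := (Finset.mem_Ico.mp hj).1
      omega
    show ‖(if j = 0 then eef n c b g G (q - 1) else bet n b g G q j) w‖ = _
    rw [if_neg hj0]

theorem PT2 (hP2L : P2L_stmt) (hHSM : HSM_stmt) (hP2A : P2A_stmt) (hLEA : LEA_stmt)
    (hLV : LV_stmt) : PT2_stmt := by
  intro n k _ c b g ψ R ε y ρ₁ χ G1 ps T G Q hH p hp1 hpQ w t ht hw
  have hsu := hH.su2.su
  have hn := hsu.hn
  have hε : 0 ≤ ε := by
    refine le_trans ?_ hsu.hE
    have h1 : 0 < Real.log ‖rho n b‖ := Real.log_pos hsu.rho1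
    have h2 : 0 ≤ ∫ z in ball (0 : ℂ) R, ‖er n c b g z‖ :=
      integral_nonneg fun z => norm_nonneg _
    positivity
  have hanti0 : ∀ m q : ℕ, q + m ≤ Q → T (q + m) ≤ T q := by
    intro m
    induction m with
    | zero => intro q _; exact le_refl _
    | succ m ih =>
      intro q hq
      exact le_trans (hH.sys.anti (q + m) (by omega)) (ih q (by omega))
  have hanti : ∀ q, q ≤ p → T p ≤ T q := by
    intro q hq
    have := hanti0 (p - q) q (by omega)
    rwa [Nat.add_sub_cancel' hq] at this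
  obtain ⟨-, -, -, hlev, -, -, -⟩ := hP2A n k c b g ψ R ε y ρ₁ χ G1 ps T G Q hH
  have hL := hlev p hpQ
  set Ω : Set ℂ := ball ((y : ℂ) * I) (T p) with hΩ
  have hΩo : IsOpen Ω := isOpen_ball
  obtain ⟨-, -, -, -, hbet, heef⟩ := hLEA n k c b g G Ω p hn hsu.cyc hΩo hL
  have hsub : ball w t ⊆ Ω := by
    intro z hz
    rw [hΩ, mem_ball_iff_norm]
    rw [mem_ball_iff_norm] at hz
    calc ‖z - (y : ℂ) * I‖ = ‖(z - w) + (w - (y : ℂ) * I)‖ := by congr 1; ring
      _ ≤ ‖z - w‖ + ‖w - (y : ℂ) * I‖ := norm_add_le _ _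
      _ < t + ‖w - (y : ℂ) * I‖ := by linarith
      _ ≤ T p := by linarith
  have hwΩ : w ∈ Ω := hsub (mem_ball_self ht)
  have hd : ∀ i ∈ Finset.Icc 1 p ×ˢ Finset.range n,
      DifferentiableOn ℂ (PT2_fam n c b g G i) Ω := by
    intro i hi
    rw [Finset.mem_product, Finset.mem_Icc, Finset.mem_range] at hi
    obtain ⟨⟨hi1, hi2⟩, hi3⟩ := hi
    unfold PT2_fam
    by_cases h0 : i.2 = 0
    · rw [if_pos h0]
      exact heef (i.1 - 1) (by omega)
    · rw [if_neg h0]
      have := hbet (i.1 - 1) (by omega) i.2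
      rwa [Nat.sub_add_cancel hi1] at this
  have hcont : ∀ q ∈ Finset.Icc 1 p, ContinuousOn (fun z => lev n c b g G q z) Ω := by
    intro q hq
    rw [Finset.mem_Icc] at hq
    unfold lev
    refine ContinuousOn.add ?_ ?_
    · refine continuousOn_finsetSum _ fun j _ => ?_
      have := hbet (q - 1) (by omega) j
      rw [Nat.sub_add_cancel hq.1] at this
      exact this.continuousOn.norm
    · exact (heef (q - 1) (by omega)).continuousOn.norm
  have h1 := hHSM (ℕ × ℕ) (Finset.Icc 1 p ×ˢ Finset.range n) (PT2_fam n c b g G) w t ht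
    (fun i hi => (hd i hi).mono hsub)
  simp only [PT2_sum n c b g G hn p] at h1
  have hnn : ∀ q z, 0 ≤ lev n c b g G q z := by
    intro q z
    unfold lev
    positivity
  have h2 : ∫⁻ z in ball w t, ENNReal.ofReal (∑ q ∈ Finset.Icc 1 p, lev n c b g G q z) =
      ∑ q ∈ Finset.Icc 1 p, ∫⁻ z in ball w t, ENNReal.ofReal (lev n c b g G q z) := by
    rw [← lintegral_finsetSum']
    · refine lintegral_congr fun z => ?_
      rw [ENNReal.ofReal_sum_of_nonneg fun q _ => hnn q z]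
    · intro q hq
      exact ((hcont q hq).mono hsub).aemeasurable measurableSet_ball |>.ennreal_ofReal
  have h3 : ∑ q ∈ Finset.Icc 1 p, ∫⁻ z in ball w t, ENNReal.ofReal (lev n c b g G q z) ≤
      ENNReal.ofReal (4000 * ε) := by
    refine le_trans ?_ (hP2L n k c b g ψ R ε y ρ₁ χ G1 ps T G Q hH)
    refine le_trans (Finset.sum_le_sum fun q hq => ?_)
      (Finset.sum_le_sum_of_subset (Finset.Icc_subset_Icc le_rfl hpQ))
    refine lintegral_mono_set ?_
    exact hsub.trans (ball_subset_ball (hanti q (Finset.mem_Icc.mp hq).2))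
  rw [h2] at h1
  have h4 := (ENNReal.ofReal_le_ofReal_iff (by positivity)).mp (h1.trans h3)
  refine ⟨?_, (hLV n k c b g G Ω p hn hsu.cyc hΩo hL).2.2.2 p le_rfl w hwΩ⟩
  set S := ∑ q ∈ Finset.Icc 1 p, lev n c b g G q w with hS
  have hS0 : 0 ≤ S := Finset.sum_nonneg fun q _ => hnn q w
  have hpi : (3.14 : ℝ) < Real.pi := Real.pi_gt_d2
  rw [le_div_iff₀ (by positivity)]
  have h5 : 3.14 * (S * t ^ 2) ≤ Real.pi * t ^ 2 * S := by
    have : 0 ≤ S * t ^ 2 := by positivity
    nlinarith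
  nlinarith

end MPS
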